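import Pool.Agent.AT.Geo2

set_option autoImplicit false

namespace Pool.Agent.Helper321.AT

open Pool.Agent.AT

theorem stF3 (h1 : StT1) (h2 : StT2) : StF3 := by
  intro R
  choose N hN using h2
  have hinj : Function.Injective N := by
    intro w w' h
    apply h1
    apply G.ext
    ext i j
    rw [hN, hN, h]
  refine Set.Finite.of_finite_image (f := N) ?_ hinj.injOn
  refine (Set.Finite.pi' (fun _ : Fin 4 => Set.Finite.pi'
    (fun _ : Fin 4 => Set.finite_Icc (-⌈R⌉) ⌈R⌉))).subset ?_
  rintro _ ⟨w, hw, rfl⟩ i j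
  have h3 := hw i j
  rw [hN, abs_le] at h3
  have h4 := Int.le_ceil R
  constructor
  · have : (-⌈R⌉ : ℝ) ≤ (N w i j : ℝ) := by linarith
    exact_mod_cast this
  · have : (N w i j : ℝ) ≤ (⌈R⌉ : ℝ) := by linarith
    exact_mod_cast this

end Pool.Agent.Helper321.AT
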