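import Mathlib

set_option autoImplicit false

open MeasureTheory

namespace Pool.Agent.Helper321.AT

section defs

open Classical

variable {L Ω : Type} [Group L] [MulAction L Ω] (gr : SimpleGraph Ω) (e : ℕ → L) (Z : Set Ω)

def D : ℕ → Set Ω
  | 0 => Z
  | n + 1 => D n ∪ {x | ∃ i, gr.Adj x (e i • x) ∧ e i • x ∈ D n}

theorem D_mono {m n : ℕ} (h : m ≤ n) : D gr e Z m ⊆ D gr e Z n := by
  induction h with
  | refl => exact subset_rfl
  | step _ ih => exact ih.trans Set.subset_union_left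

def Pr (n i : ℕ) (x : Ω) : Prop :=
  (gr.Adj x (e i • x) ∧ e i • x ∈ D gr e Z n) ∨
    ¬ ∃ j, (gr.Adj x (e j • x) ∧ e j • x ∈ D gr e Z n)

theorem Pr_ex (n : ℕ) (x : Ω) : ∃ i, Pr gr e Z n i x := by
  by_cases h : ∃ j, (gr.Adj x (e j • x) ∧ e j • x ∈ D gr e Z n)
  · obtain ⟨j, hj⟩ := h
    exact ⟨j, Or.inl hj⟩
  · exact ⟨0, Or.inr h⟩

noncomputable def pj : ℕ → Ω → Ω
  | 0 => id
  | n + 1 => fun x => if x ∈ D gr e Z n then pj n x
      else pj n (e (Nat.find (Pr_ex gr e Z n x)) • x)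

def Fr (n : ℕ) (x : Ω) : Prop := x ∈ D gr e Z n ∨ ¬ ∃ m, x ∈ D gr e Z m

theorem Fr_ex (x : Ω) : ∃ n, Fr gr e Z n x := by
  by_cases h : ∃ m, x ∈ D gr e Z m
  · obtain ⟨m, hm⟩ := h
    exact ⟨m, Or.inl hm⟩
  · exact ⟨0, Or.inr h⟩

noncomputable def zz (x : Ω) : Ω := pj gr e Z (Nat.find (Fr_ex gr e Z x)) x

theorem pj_stable {m n : ℕ} {x : Ω} (hx : x ∈ D gr e Z m) (h : m ≤ n) :
    pj gr e Z n x = pj gr e Z m x := by
  induction h with
  | refl => rfl
  | step h ih =>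
    rw [← ih]
    exact if_pos (D_mono gr e Z h hx)

theorem zz_eq {n : ℕ} {x : Ω} (hx : x ∈ D gr e Z n) : zz gr e Z x = pj gr e Z n x := by
  unfold zz
  have h1 := Nat.find_spec (Fr_ex gr e Z x)
  have h2 : Nat.find (Fr_ex gr e Z x) ≤ n := Nat.find_min' _ (Or.inl hx)
  rcases h1 with h1 | h1
  · exact (pj_stable gr e Z h1 h2).symm
  · exact absurd ⟨n, hx⟩ h1

theorem zz_fix {x : Ω} (hx : x ∈ Z) : zz gr e Z x = x := zz_eq gr e Z (n := 0) hx

theorem step_z {n : ℕ} {x : Ω} (hx : x ∈ D gr e Z (n + 1)) (hx' : x ∉ D gr e Z n) :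
    ∃ y, gr.Adj x y ∧ y ∈ D gr e Z n ∧ zz gr e Z x = zz gr e Z y := by
  have h1 : ∃ j, (gr.Adj x (e j • x) ∧ e j • x ∈ D gr e Z n) := by
    rcases hx with h | h
    · exact absurd h hx'
    · exact h
  have h2 := Nat.find_spec (Pr_ex gr e Z n x)
  rcases h2 with h2 | h2
  · refine ⟨_, h2.1, h2.2, ?_⟩
    rw [zz_eq gr e Z hx, zz_eq gr e Z h2.2]
    exact if_neg hx'
  · exact absurd h1 h2

theorem zz_mem : ∀ {n : ℕ} {x : Ω}, x ∈ D gr e Z n → zz gr e Z x ∈ Z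
  | 0, x, hx => by rw [zz_fix gr e Z hx]; exact hx
  | n + 1, x, hx => by
    by_cases h : x ∈ D gr e Z n
    · exact zz_mem h
    · obtain ⟨y, _, h2, h3⟩ := step_z gr e Z hx h
      rw [h3]; exact zz_mem h2

/-- same-cell edges -/
def cg : SimpleGraph Ω where
  Adj x y := gr.Adj x y ∧ zz gr e Z x = zz gr e Z y
  symm := ⟨fun _ _ h => ⟨h.1.symm, h.2.symm⟩⟩
  loopless := ⟨fun _ h => h.1.ne rfl⟩

theorem cg_reach : ∀ {n : ℕ} {x : Ω}, x ∈ D gr e Z n → (cg gr e Z).Reachable x (zz gr e Z x)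
  | 0, x, hx => by rw [zz_fix gr e Z hx]
  | n + 1, x, hx => by
    by_cases h : x ∈ D gr e Z n
    · exact cg_reach h
    · obtain ⟨y, h1, h2, h3⟩ := step_z gr e Z hx h
      have h4 : (cg gr e Z).Adj x y := ⟨h1, h3⟩
      rw [h3]
      exact h4.reachable.trans (cg_reach h2)

/-- the contracted graph -/
def gq : SimpleGraph Z where
  Adj a b := a ≠ b ∧ ∃ x y, (∃ n, x ∈ D gr e Z n) ∧ (∃ n, y ∈ D gr e Z n) ∧
    zz gr e Z x = a ∧ zz gr e Z y = b ∧ gr.Adj x y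
  symm := ⟨fun _ _ h => ⟨h.1.symm, by
    obtain ⟨x, y, hx, hy, h1, h2, h3⟩ := h.2
    exact ⟨y, x, hy, hx, h2, h1, h3.symm⟩⟩⟩
  loopless := ⟨fun _ h => h.1 rfl⟩

end defs

variable {L Ω : Type} [Group L] [MulAction L Ω] {gr : SimpleGraph Ω} {e : ℕ → L} {Z : Set Ω}

theorem D_closed (he : Function.Surjective e) (orb : ∀ x y, gr.Adj x y → ∃ γ : L, y = γ • x)
    {x y : Ω} (hx : ∃ n, x ∈ D gr e Z n) (h : gr.Adj x y) : ∃ n, y ∈ D gr e Z n := by
  obtain ⟨n, hn⟩ := hx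
  obtain ⟨γ, hγ⟩ := orb _ _ h.symm
  obtain ⟨i, rfl⟩ := he γ
  refine ⟨n + 1, Or.inr ⟨i, ?_, ?_⟩⟩
  · rw [← hγ]; exact h.symm
  · rw [← hγ]; exact hn

theorem cg_le : cg gr e Z ≤ gr := fun _ _ h => h.1

theorem reach_of_q {a b : Z} (h : (gq gr e Z).Reachable a b) : gr.Reachable a.1 b.1 := by
  obtain ⟨w⟩ := h
  induction w with
  | nil => exact SimpleGraph.Reachable.refl _
  | cons h _ ih =>
    obtain ⟨x, y, ⟨n, hn⟩, ⟨m, hm⟩, h1, h2, h3⟩ := h.2
    have r1 := (cg_reach gr e Z hn).mono cg_le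
    have r2 := (cg_reach gr e Z hm).mono cg_le
    rw [h1] at r1
    rw [h2] at r2
    exact (r1.symm.trans (h3.reachable.trans r2)).trans ih

theorem q_of_reach (he : Function.Surjective e) (orb : ∀ x y, gr.Adj x y → ∃ γ : L, y = γ • x)
    {x y : Ω} (h : gr.Reachable x y) : ∀ (hx : ∃ n, x ∈ D gr e Z n),
    ∃ hy : ∃ n, y ∈ D gr e Z n, (gq gr e Z).Reachable
      ⟨zz gr e Z x, by obtain ⟨n, hn⟩ := hx; exact zz_mem gr e Z hn⟩
      ⟨zz gr e Z y, by obtain ⟨n, hn⟩ := hy; exact zz_mem gr e Z hn⟩ := by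
  obtain ⟨w⟩ := h
  induction w with
  | nil => intro hx; exact ⟨hx, SimpleGraph.Reachable.refl _⟩
  | @cons u v w h _ ih =>
    intro hx
    have hy := D_closed he orb hx h
    obtain ⟨hz, hr⟩ := ih hy
    refine ⟨hz, ?_⟩
    by_cases hE : zz gr e Z u = zz gr e Z v
    · have : (⟨zz gr e Z u, by obtain ⟨n, hn⟩ := hx; exact zz_mem gr e Z hn⟩ : Z) =
        ⟨zz gr e Z v, by obtain ⟨n, hn⟩ := hy; exact zz_mem gr e Z hn⟩ := Subtype.ext hE
      rw [this]; exact hr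
    · refine SimpleGraph.Reachable.trans (SimpleGraph.Adj.reachable ?_) hr
      exact ⟨fun hh => hE (congrArg Subtype.val hh), _, _, hx, hy, rfl, rfl, h⟩

theorem q_acyc (acyc : gr.IsAcyclic) : (gq gr e Z).IsAcyclic := by
  rw [SimpleGraph.isAcyclic_iff_forall_adj_isBridge]
  intro a b hab
  obtain ⟨hne, x, y, hx, hy, hxa, hyb, hadj⟩ := hab
  rw [SimpleGraph.isBridge_iff]
  intro hr
  have hb := (SimpleGraph.isAcyclic_iff_forall_adj_isBridge.1 acyc) hadj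
  rw [SimpleGraph.isBridge_iff] at hb
  apply hb
  have hne' : zz gr e Z x ≠ zz gr e Z y := by
    rw [hxa, hyb]; exact fun h => hne (Subtype.ext h)
  have hcg : cg gr e Z ≤ gr.deleteEdges {s(x, y)} := by
    intro u v huv
    rw [SimpleGraph.deleteEdges_adj]
    refine ⟨huv.1, fun h => ?_⟩
    rw [Set.mem_singleton_iff, Sym2.eq_iff] at h
    rcases h with ⟨rfl, rfl⟩ | ⟨rfl, rfl⟩
    · exact hne' huv.2
    · exact hne' huv.2.symm
  have key : ∀ c d : Z, ((gq gr e Z).deleteEdges {s(a, b)}).Reachable c d →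
      ∀ x' y', (∃ n, x' ∈ D gr e Z n) → (∃ n, y' ∈ D gr e Z n) → zz gr e Z x' = c →
        zz gr e Z y' = d → (gr.deleteEdges {s(x, y)}).Reachable x' y' := by
    rintro c d ⟨w⟩
    induction w with
    | nil =>
      rintro x' y' ⟨n, hn⟩ ⟨m, hm⟩ h1 h2
      have r1 := (cg_reach gr e Z hn).mono hcg
      have r2 := (cg_reach gr e Z hm).mono hcg
      rw [h1] at r1
      rw [h2] at r2
      exact r1.trans r2.symm
    | cons h _ ih =>
      rintro x' y' ⟨n, hn⟩ hm h1 h2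
      rw [SimpleGraph.deleteEdges_adj] at h
      obtain ⟨⟨hq, x1, y1, ⟨n1, hn1⟩, hy1, hz1, hz2, hadj1⟩, hq2⟩ := h
      have r1 := (cg_reach gr e Z hn).mono hcg
      have r2 := (cg_reach gr e Z hn1).mono hcg
      rw [h1] at r1
      rw [hz1] at r2
      refine (r1.trans r2.symm).trans (SimpleGraph.Reachable.trans
        (SimpleGraph.Adj.reachable ?_) (ih y1 y' hy1 hm hz2 h2))
      rw [SimpleGraph.deleteEdges_adj]
      refine ⟨hadj1, fun h => hq2 ?_⟩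
      rw [Set.mem_singleton_iff, Sym2.eq_iff] at h ⊢
      rcases h with ⟨rfl, rfl⟩ | ⟨rfl, rfl⟩
      · left; exact ⟨Subtype.ext (hz1.symm.trans hxa), Subtype.ext (hz2.symm.trans hyb)⟩
      · right; exact ⟨Subtype.ext (hz1.symm.trans hyb), Subtype.ext (hz2.symm.trans hxa)⟩
  exact key a b hr x y hx hy hxa hyb

section meas

variable [MeasurableSpace Ω]

theorem D_meas (hm : ∀ l : L, Measurable (fun x : Ω => l • x))
    (meas : ∀ γ : L, MeasurableSet {x | gr.Adj x (γ • x)}) (hZ : MeasurableSet Z) :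
    ∀ n, MeasurableSet (D gr e Z n)
  | 0 => hZ
  | n + 1 => by
    refine (D_meas hm meas hZ n).union ?_
    have : {x | ∃ i, gr.Adj x (e i • x) ∧ e i • x ∈ D gr e Z n} =
        ⋃ i, ({x | gr.Adj x (e i • x)} ∩ (fun x => e i • x) ⁻¹' (D gr e Z n)) := by
      ext x; simp
    rw [this]
    exact MeasurableSet.iUnion fun i => (meas _).inter (hm _ (D_meas hm meas hZ n))

theorem pj_meas (hm : ∀ l : L, Measurable (fun x : Ω => l • x))
    (meas : ∀ γ : L, MeasurableSet {x | gr.Adj x (γ • x)}) (hZ : MeasurableSet Z) :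
    ∀ n, Measurable (pj gr e Z n)
  | 0 => measurable_id
  | n + 1 => by
    classical
    have hD := D_meas (e := e) hm meas hZ n
    have hS : ∀ i, MeasurableSet {x | gr.Adj x (e i • x) ∧ e i • x ∈ D gr e Z n} := fun i =>
      (meas _).inter (hm _ hD)
    have h1 : ∀ i, MeasurableSet {x | Pr gr e Z n i x} := by
      intro i
      refine (hS i).union ?_
      have : {x | ¬ ∃ j, (gr.Adj x (e j • x) ∧ e j • x ∈ D gr e Z n)} =
          (⋃ j, {x | gr.Adj x (e j • x) ∧ e j • x ∈ D gr e Z n})ᶜ := by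
        ext x; simp
      have h' : MeasurableSet {x | ¬ ∃ j, (gr.Adj x (e j • x) ∧ e j • x ∈ D gr e Z n)} := by
        rw [this]; exact (MeasurableSet.iUnion hS).compl
      exact h'
    have h2 : Measurable (fun x => pj gr e Z n (e (Nat.find (Pr_ex gr e Z n x)) • x)) :=
      Measurable.find (f := fun i x => pj gr e Z n (e i • x))
        (fun i => (pj_meas hm meas hZ n).comp (hm _)) h1 (Pr_ex gr e Z n)
    have h3 : Measurable (fun x => if x ∈ D gr e Z n then pj gr e Z n x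
        else pj gr e Z n (e (Nat.find (Pr_ex gr e Z n x)) • x)) :=
      Measurable.ite hD (pj_meas hm meas hZ n) h2
    have h4 : pj gr e Z (n + 1) = fun x => if x ∈ D gr e Z n then pj gr e Z n x
        else pj gr e Z n (e (Nat.find (Pr_ex gr e Z n x)) • x) := by
      funext x
      by_cases h : x ∈ D gr e Z n
      · rw [if_pos h]; exact if_pos h
      · rw [if_neg h]; refine (if_neg h).trans ?_
        congr!
    rw [h4]
    exact h3

theorem zz_meas (hm : ∀ l : L, Measurable (fun x : Ω => l • x))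
    (meas : ∀ γ : L, MeasurableSet {x | gr.Adj x (γ • x)}) (hZ : MeasurableSet Z) :
    Measurable (zz gr e Z) := by
  classical
  have hD := D_meas (e := e) hm meas hZ
  have h1 : ∀ n, MeasurableSet {x | Fr gr e Z n x} := by
    intro n
    refine (hD n).union ?_
    have : {x | ¬ ∃ m, x ∈ D gr e Z m} = (⋃ m, D gr e Z m)ᶜ := by ext x; simp
    have h' : MeasurableSet {x | ¬ ∃ m, x ∈ D gr e Z m} := by
      rw [this]; exact (MeasurableSet.iUnion hD).compl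
    exact h'
  have h2 := Measurable.find (f := fun n x => pj gr e Z n x)
    (fun n => pj_meas hm meas hZ n) h1 (Fr_ex gr e Z)
  unfold zz
  convert h2 using 1

theorem q_meas [StandardBorelSpace Ω] [Countable L]
    (hm : ∀ l : L, Measurable (fun x : Ω => l • x))
    (orb : ∀ x y, gr.Adj x y → ∃ γ : L, y = γ • x)
    (meas : ∀ γ : L, MeasurableSet {x | gr.Adj x (γ • x)}) (hZ : MeasurableSet Z) (l : L) :
    MeasurableSet {x : Ω | ∃ (h1 : x ∈ Z) (h2 : l • x ∈ Z),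
      (gq gr e Z).Adj ⟨x, h1⟩ ⟨l • x, h2⟩} := by
  have hz := zz_meas (e := e) hm meas hZ
  have hD : MeasurableSet {x | ∃ n, x ∈ D gr e Z n} := by
    have : {x | ∃ n, x ∈ D gr e Z n} = ⋃ n, D gr e Z n := by ext x; simp
    rw [this]; exact MeasurableSet.iUnion (D_meas hm meas hZ)
  have orbR : ∀ x y, gr.Reachable x y → ∃ γ : L, y = γ • x := by
    rintro x y ⟨w⟩
    induction w with
    | nil => exact ⟨1, (one_smul _ _).symm⟩
    | cons h _ ih =>
      obtain ⟨γ, hγ⟩ := orb _ _ h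
      obtain ⟨γ', hγ'⟩ := ih
      exact ⟨γ' * γ, by rw [mul_smul, ← hγ, ← hγ']⟩
  have e1 : {x : Ω | ∃ (h1 : x ∈ Z) (h2 : l • x ∈ Z), (gq gr e Z).Adj ⟨x, h1⟩ ⟨l • x, h2⟩} =
      (Z ∩ (fun x => l • x) ⁻¹' Z ∩ {x | x = l • x}ᶜ) ∩ ⋃ a : L, ⋃ b : L,
        ((((fun x => a • x) ⁻¹' {x | ∃ n, x ∈ D gr e Z n}) ∩
          ((fun x => b • x) ⁻¹' {x | ∃ n, x ∈ D gr e Z n})) ∩
          ({x | zz gr e Z (a • x) = x} ∩ {x | zz gr e Z (b • x) = l • x})) ∩
          ((fun x => a • x) ⁻¹' {y | gr.Adj y ((b * a⁻¹) • y)}) := by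
    ext x
    simp only [Set.mem_ofPred_eq, Set.mem_inter_iff, Set.mem_preimage, Set.mem_compl_iff,
      Set.mem_iUnion]
    constructor
    · rintro ⟨h1, h2, hne, u, v, ⟨n, hn⟩, ⟨m, hm'⟩, hu, hv, huv⟩
      refine ⟨⟨⟨h1, h2⟩, fun h => hne (Subtype.ext h)⟩, ?_⟩
      obtain ⟨a, ha⟩ := orbR _ _ ((cg_reach gr e Z hn).mono cg_le).symm
      obtain ⟨b, hb⟩ := orbR _ _ ((cg_reach gr e Z hm').mono cg_le).symm
      have hu' : zz gr e Z u = x := hu
      have hv' : zz gr e Z v = l • x := hv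
      rw [hu'] at ha
      rw [hv', ← mul_smul] at hb
      refine ⟨a, b * l, ⟨⟨⟨n, ?_⟩, ⟨m, ?_⟩⟩, ?_, ?_⟩, ?_⟩
      · rw [← ha]; exact hn
      · rw [← hb]; exact hm'
      · rw [← ha]; exact hu'
      · rw [← hb]; exact hv'
      · rw [mul_smul (b * l) a⁻¹, inv_smul_smul, ← ha, ← hb]; exact huv
    · rintro ⟨⟨⟨h1, h2⟩, hne⟩, a, b, ⟨⟨ha, hb⟩, hza, hzb⟩, hadj⟩
      refine ⟨h1, h2, fun h => hne (congrArg Subtype.val h), a • x, b • x, ha, hb, hza, hzb, ?_⟩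
      rw [mul_smul, inv_smul_smul] at hadj
      exact hadj
  rw [e1]
  refine ((hZ.inter (hm l hZ)).inter (measurableSet_eq_fun measurable_id (hm l)).compl).inter ?_
  refine MeasurableSet.iUnion fun a => MeasurableSet.iUnion fun b => ?_
  refine (((hm a hD).inter (hm b hD)).inter ?_).inter (hm a (meas _))
  exact (measurableSet_eq_fun (hz.comp (hm a)) measurable_id).inter
    (measurableSet_eq_fun (hz.comp (hm b)) (hm l))

end meas

theorem restrict {L Ω : Type} [Group L] [Countable L] [MeasurableSpace Ω] [StandardBorelSpace Ω]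
    [MulAction L Ω] (hm : ∀ l : L, Measurable (fun x : Ω => l • x))
    (gr : SimpleGraph Ω) (orb : ∀ x y, gr.Adj x y → ∃ γ : L, y = γ • x)
    (meas : ∀ γ : L, MeasurableSet {x | gr.Adj x (γ • x)}) (acyc : gr.IsAcyclic)
    (Z : Set Ω) (hZ : MeasurableSet Z) :
    ∃ gr' : SimpleGraph Z, gr'.IsAcyclic ∧
      (∀ x y : Z, gr'.Reachable x y ↔ gr.Reachable x.1 y.1) ∧
      (∀ l : L, MeasurableSet {x : Ω | ∃ (h1 : x ∈ Z) (h2 : l • x ∈ Z),
        gr'.Adj ⟨x, h1⟩ ⟨l • x, h2⟩}) := by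
  obtain ⟨e, he⟩ := exists_surjective_nat L
  refine ⟨gq gr e Z, q_acyc acyc, fun x y => ⟨reach_of_q, fun h => ?_⟩,
    fun l => q_meas hm orb meas hZ l⟩
  obtain ⟨_, hr⟩ := q_of_reach he orb h ⟨0, x.2⟩
  have e1 : zz gr e Z x.1 = x.1 := zz_fix gr e Z x.2
  have e2 : zz gr e Z y.1 = y.1 := zz_fix gr e Z y.2
  have e3 : (⟨zz gr e Z x.1, zz_mem gr e Z (n := 0) x.2⟩ : Z) = x := Subtype.ext e1
  have e4 : (⟨zz gr e Z y.1, zz_mem gr e Z (n := 0) y.2⟩ : Z) = y := Subtype.ext e2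
  rw [e3, e4] at hr
  exact hr

end Pool.Agent.Helper321.AT
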