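import Pool.Agent.Helper321.AT.Restr
import Pool.Agent.AT.Defs

set_option autoImplicit false

open MeasureTheory

namespace Pool.Agent.Helper321.AT

open Pool.Agent.AT

theorem reach_lift {Ω : Type} {Z : Set Ω} {H : SimpleGraph Ω} {H' : SimpleGraph Z}
    (h : ∀ x y, H.Adj x y ↔ ∃ (hx : x ∈ Z) (hy : y ∈ Z), H'.Adj ⟨x, hx⟩ ⟨y, hy⟩)
    {x y : Ω} (hr : H.Reachable x y) (hx : x ∈ Z) :
    ∃ hy : y ∈ Z, H'.Reachable ⟨x, hx⟩ ⟨y, hy⟩ := by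
  obtain ⟨w⟩ := hr
  induction w with
  | nil => exact ⟨hx, SimpleGraph.Reachable.refl _⟩
  | cons hadj _ ih =>
    obtain ⟨h1, h2, h3⟩ := (h _ _).1 hadj
    obtain ⟨hy, hr⟩ := ih h2
    exact ⟨hy, h3.reachable.trans hr⟩

theorem reach_drop {Ω : Type} {Z : Set Ω} {H : SimpleGraph Ω} {H' : SimpleGraph Z}
    (h : ∀ x y, H.Adj x y ↔ ∃ (hx : x ∈ Z) (hy : y ∈ Z), H'.Adj ⟨x, hx⟩ ⟨y, hy⟩)
    {x y : Z} (hr : H'.Reachable x y) : H.Reachable x.1 y.1 := by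
  obtain ⟨w⟩ := hr
  induction w with
  | nil => exact SimpleGraph.Reachable.refl _
  | cons hadj _ ih =>
    exact (SimpleGraph.Adj.reachable ((h _ _).2 ⟨Subtype.prop _, Subtype.prop _, hadj⟩)).trans ih

/-- the graph on the big space -/
def big {Ω : Type} {Z : Set Ω} (g : SimpleGraph Z) : SimpleGraph Ω where
  Adj x y := ∃ (hx : x ∈ Z) (hy : y ∈ Z), g.Adj ⟨x, hx⟩ ⟨y, hy⟩
  symm := ⟨fun _ _ h => by
    obtain ⟨hx, hy, h⟩ := h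
    exact ⟨hy, hx, h.symm⟩⟩
  loopless := ⟨fun _ h => by
    obtain ⟨_, _, h⟩ := h
    exact h.ne rfl⟩

/-- MODULE R -/
theorem restrictM {Γ X : Type} [Group Γ] [Countable Γ] [MeasurableSpace X] [StandardBorelSpace X]
    [MulAction Γ X] (hmeas : ∀ γ : Γ, Measurable (fun x : X => γ • x)) (F : MTree Γ X)
    (Z : Set X) (hZ : MeasurableSet Z) :
    ∃ F' : MTree Γ X, (∀ x y, F'.gr.Adj x y → x ∈ Z ∧ y ∈ Z) ∧
      ∀ x ∈ Z, ∀ y ∈ Z, (F'.gr.Reachable x y ↔ F.gr.Reachable x y) := by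
  obtain ⟨g, hac, hreach, hms⟩ := restrict hmeas F.gr F.orb F.meas F.acyc Z hZ
  have h0 : ∀ x y, (big g).Adj x y ↔ ∃ (hx : x ∈ Z) (hy : y ∈ Z), g.Adj ⟨x, hx⟩ ⟨y, hy⟩ :=
    fun x y => Iff.rfl
  have hR : ∀ x y : Z, (big g).Reachable x.1 y.1 ↔ g.Reachable x y := fun x y =>
    ⟨fun h => (reach_lift h0 h x.2).2, fun h => reach_drop h0 h⟩
  have hacyc : (big g).IsAcyclic := by
    rw [SimpleGraph.isAcyclic_iff_forall_adj_isBridge]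
    intro x y hxy
    obtain ⟨hx, hy, hg⟩ := hxy
    rw [SimpleGraph.isBridge_iff]
    intro hr
    have hb := (SimpleGraph.isAcyclic_iff_forall_adj_isBridge.1 hac) hg
    rw [SimpleGraph.isBridge_iff] at hb
    apply hb
    have h1 : ∀ u v, ((big g).deleteEdges {s(x, y)}).Adj u v ↔ ∃ (hu : u ∈ Z) (hv : v ∈ Z),
        (g.deleteEdges {s((⟨x, hx⟩ : Z), (⟨y, hy⟩ : Z))}).Adj ⟨u, hu⟩ ⟨v, hv⟩ := by
      intro u v
      simp only [SimpleGraph.deleteEdges_adj, Set.mem_singleton_iff, Sym2.eq_iff, Subtype.mk.injEq]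
      constructor
      · rintro ⟨⟨hu, hv, h2⟩, h3⟩
        exact ⟨hu, hv, h2, h3⟩
      · rintro ⟨hu, hv, h2, h3⟩
        exact ⟨⟨hu, hv, h2⟩, h3⟩
    exact (reach_lift h1 hr hx).2
  refine ⟨⟨big g, ?_, ?_, hacyc⟩, fun x y h => ⟨h.1, h.2.1⟩, ?_⟩
  · intro x y h
    have horb : ∀ x y, F.gr.Reachable x y → ∃ γ : Γ, y = γ • x := by
      rintro x y ⟨w⟩
      induction w with
      | nil => exact ⟨1, (one_smul _ _).symm⟩
      | cons h _ ih =>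
        obtain ⟨γ, hγ⟩ := F.orb _ _ h
        obtain ⟨γ', hγ'⟩ := ih
        exact ⟨γ' * γ, by rw [mul_smul, ← hγ, ← hγ']⟩
    obtain ⟨hx, hy, hg⟩ := h
    exact horb _ _ ((hreach ⟨x, hx⟩ ⟨y, hy⟩).1 hg.reachable)
  · intro γ; exact hms γ
  · intro x hx y hy
    exact (hR ⟨x, hx⟩ ⟨y, hy⟩).trans (hreach ⟨x, hx⟩ ⟨y, hy⟩)

end Pool.Agent.Helper321.AT
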